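import Pool.Agent.H921.QX.Defs

set_option autoImplicit false

namespace Pool.Agent.H921.QX

open Filter Topology MeasureTheory Pool.Agent.N795.PI Pool.Agent.N774.PIA Pool.Agent.H921.QP

variable {N : E3 → ℝ} {ρ : ℝ → ℝ} {h : Fin 3 → Fin 3 → E3 → ℝ} {t0 m : ℝ}

section
variable (D : IsQExt N ρ h t0 m)
include D

lemma IsQExt.ten : SmoothTen h :=
  ⟨D.symm, fun i j x hx => (D.smoothH i j x hx).of_le (by exact_mod_cast (le_top : (1 : ℕ∞) ≤ ⊤))⟩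

lemma IsQExt.cN {x : E3} (hx : x ≠ 0) : ContDiffAt ℝ 2 N x :=
  (D.smoothN x hx).of_le (show ((2 : ℕ∞) : WithTop ℕ∞) ≤ ((⊤ : ℕ∞) : WithTop ℕ∞) from WithTop.coe_le_coe.2 le_top)

lemma IsQExt.cR {t : ℝ} (ht : 0 < t) : ContDiffAt ℝ 2 ρ t :=
  (D.smoothR t ht).of_le (show ((2 : ℕ∞) : WithTop ℕ∞) ≤ ((⊤ : ℕ∞) : WithTop ℕ∞) from WithTop.coe_le_coe.2 le_top)

lemma IsQExt.cdR {t : ℝ} (ht : 0 < t) : ContDiffAt ℝ 1 (deriv ρ) t := by
  have h1 : ContDiffAt ℝ 1 (fderiv ℝ ρ) t := (D.cR ht).fderiv_right (by norm_num)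
  have h2 : ContDiffAt ℝ 1 (fun s => fderiv ℝ ρ s 1) t := h1.clm_apply contDiffAt_const
  exact h2

lemma IsQExt.hR {t : ℝ} (ht : 0 < t) : HasDerivAt ρ (deriv ρ t) t :=
  ((D.cR ht).differentiableAt (by norm_num)).hasDerivAt

lemma IsQExt.hdR {t : ℝ} (ht : 0 < t) : HasDerivAt (deriv ρ) (deriv (deriv ρ) t) t :=
  ((D.cdR ht).differentiableAt (by norm_num)).hasDerivAt

lemma IsQExt.cRn {x : E3} (hx : x ≠ 0) : ContDiffAt ℝ 1 (fun y : E3 => ρ ‖y‖) x :=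
  ((D.cR (norm_pos_iff.2 hx)).of_le (by norm_num)).comp x (contDiffAt_norm ℝ hx)

lemma IsQExt.cdRn {x : E3} (hx : x ≠ 0) : ContDiffAt ℝ 1 (fun y : E3 => deriv ρ ‖y‖) x :=
  (D.cdR (norm_pos_iff.2 hx)).comp x (contDiffAt_norm ℝ hx)

lemma IsQExt.ctr {x : E3} (hx : x ≠ 0) : ContDiffAt ℝ 1 (trSph ρ h) x := by
  have h1 : ContDiffAt ℝ 1 (fun y : E3 => (‖y‖ / ρ ‖y‖) ^ 2) x :=
    ((contDiffAt_norm ℝ hx).div (D.cRn hx) (D.posR _ (norm_pos_iff.2 hx)).ne').pow 2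
  exact h1.mul ((cd_trE D.ten hx).sub (cd_lam D.ten hx))

lemma IsQExt.cH {x : E3} (hx : x ≠ 0) : ContDiffAt ℝ 1 (Hs N ρ) x := by
  have h1 : ContDiffAt ℝ 1 (fun y : E3 => 2 * deriv ρ ‖y‖) x := contDiffAt_const.mul (D.cdRn hx)
  have h2 : ContDiffAt ℝ 1 (fun y : E3 => ρ ‖y‖ * N y) x :=
    (D.cRn hx).mul ((D.cN hx).of_le (by norm_num))
  exact h1.div h2 (mul_pos (D.posR _ (norm_pos_iff.2 hx)) (D.posN x hx)).ne'

lemma IsQExt.dN {x : E3} (hx : x ≠ 0) : DifferentiableAt ℝ N x :=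
  (D.cN hx).differentiableAt (by norm_num)

/-- the ray through a point -/
lemma IsQExt.ray_norm {x : E3} (hx : x ≠ 0) {s : ℝ} (hs : 0 < s) : ‖(s / ‖x‖) • x‖ = s := by
  have hn := norm_pos_iff.2 hx
  rw [norm_smul, Real.norm_eq_abs, abs_of_pos (div_pos hs hn), div_mul_cancel₀ _ hn.ne']

lemma IsQExt.ray_ne {x : E3} (hx : x ≠ 0) {s : ℝ} (hs : 0 < s) : (s / ‖x‖) • x ≠ 0 :=
  smul_ne_zero (div_pos hs (norm_pos_iff.2 hx)).ne' hx

lemma IsQExt.tr_eq_bet {x : E3} (hx : x ≠ 0) (hxt : t0 ≤ ‖x‖) :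
    trSph ρ h x = 2 * bet N ρ h ‖x‖ / N x := by
  have hn := norm_pos_iff.2 hx
  have h1 := D.unif x (‖x‖ • e0) hx hxt (norm_te0 hn).symm
  rw [bet, eq_div_iff (D.posN x hx).ne']
  linarith

lemma IsQExt.hbet {t : ℝ} (ht : 0 < t) : HasDerivAt (bet N ρ h) (deriv (bet N ρ h) t) t := by
  have hx := te0_ne ht
  have h1 := ray_deriv hx (D.dN hx)
  have h2 := ray_deriv hx ((D.ctr hx).differentiableAt (by norm_num))
  rw [norm_te0 ht] at h1 h2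
  have h3 : ∀ s : ℝ, (s / t) • t • e0 = s • e0 := by
    intro s
    rw [smul_smul, div_mul_cancel₀ _ ht.ne']
  simp only [h3] at h1 h2
  exact ((h1.mul h2).div_const 2).differentiableAt.hasDerivAt

lemma IsQExt.drH {x : E3} (hx : x ≠ 0) : dr (Hs N ρ) x =
    2 * (deriv (deriv ρ) ‖x‖ * ρ ‖x‖ - deriv ρ ‖x‖ ^ 2) / (ρ ‖x‖ ^ 2 * N x)
      - 2 * deriv ρ ‖x‖ * dr N x / (ρ ‖x‖ * N x ^ 2) := by
  have hn := norm_pos_iff.2 hx
  have hr := (D.posR _ hn).ne'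
  have hN := (D.posN x hx).ne'
  have h1 := ray_deriv hx ((D.cH hx).differentiableAt (by norm_num))
  have h2 := ray_deriv hx (D.dN hx)
  have h3 : HasDerivAt (fun s : ℝ => 2 * deriv ρ s / (ρ s * N ((s / ‖x‖) • x)))
      ((2 * deriv (deriv ρ) ‖x‖ * (ρ ‖x‖ * N ((‖x‖ / ‖x‖) • x)) - 2 * deriv ρ ‖x‖ *
        (deriv ρ ‖x‖ * N ((‖x‖ / ‖x‖) • x) + ρ ‖x‖ * dr N x)) /
        (ρ ‖x‖ * N ((‖x‖ / ‖x‖) • x)) ^ 2) ‖x‖ := by
    refine ((D.hdR hn).const_mul 2).div ((D.hR hn).mul h2) ?_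
    rw [div_self hn.ne', one_smul]
    exact mul_ne_zero hr hN
  have h4 : (fun s : ℝ => Hs N ρ ((s / ‖x‖) • x)) =ᶠ[𝓝 ‖x‖]
      fun s : ℝ => 2 * deriv ρ s / (ρ s * N ((s / ‖x‖) • x)) := by
    filter_upwards [lt_mem_nhds hn] with s hs
    rw [Hs, D.ray_norm hx hs]
  have h5 := h1.congr_of_eventuallyEq h4.symm
  have h6 := h5.unique h3
  rw [h6, div_self hn.ne', one_smul]
  field_simp
  ring

lemma IsQExt.drtr {x : E3} (hx : x ≠ 0) (hxt : t0 < ‖x‖) : dr (trSph ρ h) x =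
    2 * deriv (bet N ρ h) ‖x‖ / N x - 2 * bet N ρ h ‖x‖ * dr N x / N x ^ 2 := by
  have hn := norm_pos_iff.2 hx
  have hN := (D.posN x hx).ne'
  have h1 := ray_deriv hx ((D.ctr hx).differentiableAt (by norm_num))
  have h2 := ray_deriv hx (D.dN hx)
  have h3 : HasDerivAt (fun s : ℝ => 2 * bet N ρ h s / N ((s / ‖x‖) • x))
      ((2 * deriv (bet N ρ h) ‖x‖ * N ((‖x‖ / ‖x‖) • x) - 2 * bet N ρ h ‖x‖ * dr N x) /
        N ((‖x‖ / ‖x‖) • x) ^ 2) ‖x‖ := by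
    refine ((D.hbet hn).const_mul 2).div h2 ?_
    rw [div_self hn.ne', one_smul]
    exact hN
  have h4 : (fun s : ℝ => trSph ρ h ((s / ‖x‖) • x)) =ᶠ[𝓝 ‖x‖]
      fun s : ℝ => 2 * bet N ρ h s / N ((s / ‖x‖) • x) := by
    filter_upwards [lt_mem_nhds hn, lt_mem_nhds hxt] with s hs hst
    rw [D.tr_eq_bet (D.ray_ne hx hs) (by rw [D.ray_norm hx hs]; exact hst.le), D.ray_norm hx hs]
  have h5 := h1.congr_of_eventuallyEq h4.symm
  have h6 := h5.unique h3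
  rw [h6, div_self hn.ne', one_smul]
  field_simp


lemma IsQExt.drot {x : E3} (hx : x ≠ 0) (i j : Fin 3) : ContDiffAt ℝ 1 (rot i j N) x := by
  have h1 : ∀ k : Fin 3, ContDiffAt ℝ 1 (pd k N) x := by
    intro k
    have h2 : ContDiffAt ℝ 1 (fderiv ℝ N) x := (D.cN hx).fderiv_right (by norm_num)
    exact h2.clm_apply contDiffAt_const
  exact ((co i x).mul (h1 j)).sub ((co j x).mul (h1 i))

lemma IsQExt.lap_eq {x : E3} (hx : x ≠ 0) : lapS N x / N x =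
    1 / 2 * rr N x + 1 / 2 * (∑ i, ∑ j, (x i * pd j N x - x j * pd i N x) ^ 2) / N x ^ 2 := by
  have hN := (D.posN x hx).ne'
  have h1 : ∀ i j, rot i j (fun y => rot i j N y / N y) x =
      rot i j (rot i j N) x / N x - (x i * pd j N x - x j * pd i N x) ^ 2 / N x ^ 2 := by
    intro i j
    rw [rot_div' ((D.drot hx i j).differentiableAt (by norm_num)) (D.dN hx) hN]
    have h2 : rot i j N x = x i * pd j N x - x j * pd i N x := rfl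
    rw [h2]
    ring
  unfold rr lapS
  simp only [h1, Finset.sum_sub_distrib, ← Finset.sum_div]
  ring

lemma IsQExt.div_eq {x : E3} (hx : x ≠ 0) :
    (∑ i, pd i (fun y => N y * tanV h i y) x) / N x ^ 2 =
      dv N h x + 2 * (∑ i, tanV h i x * pd i N x) / N x ^ 2 := by
  have hN := (D.posN x hx).ne'
  have hV : ∀ i, DifferentiableAt ℝ (tanV h i) x := fun i =>
    (cd_tanV D.ten i hx).differentiableAt (by norm_num)
  unfold dv
  have h1 : ∀ i, pd i (fun y => N y * tanV h i y) x = pd i N x * tanV h i x +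
      N x * pd i (tanV h i) x := fun i => pd_mul' (D.dN hx) (hV i) i
  have h2 : ∀ i, pd i (fun y => tanV h i y / N y) x = pd i (tanV h i) x / N x -
      tanV h i x * pd i N x / N x ^ 2 := fun i => pd_div' (hV i) (D.dN hx) hN i
  simp only [h1, h2, Fin.sum_univ_three]
  field_simp
  ring

/-- The pointwise inequality. -/
theorem IsQExt.ptw {x : E3} (hx : x ≠ 0) (hxt : t0 < ‖x‖)
    (hw : ρ ‖x‖ * |bet N ρ h ‖x‖| ≤ deriv ρ ‖x‖) :
    ρ ‖x‖ * bet N ρ h ‖x‖ * ‖x‖ / 2 * dv N h x + deriv ρ ‖x‖ / 4 * rr N x ≤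
      Gf N ρ (bet N ρ h) x := by
  have hn := norm_pos_iff.2 hx
  have hr := D.posR _ hn
  have hN := D.posN x hx
  have hb := D.dec x hx hxt
  have hnsq := nsq_ge D.symm hx hN.ne' hr.ne'
  have hlap := D.lap_eq hx
  have hdiv := D.div_eq hx
  have hH : Hs N ρ x = 2 * deriv ρ ‖x‖ / (ρ ‖x‖ * N x) := rfl
  have htr := D.tr_eq_bet hx hxt.le
  have hdH := D.drH hx
  have hdt := D.drtr hx hxt
  have hvx : tanV h 0 x * x 0 + tanV h 1 x * x 1 + tanV h 2 x * x 2 = 0 := by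
    have := tanV_orth (h := h) hx
    rwa [Fin.sum_univ_three] at this
  have hq := quad_pos (fun i => pd i N x) (fun i => tanV h i x) (fun i => x i) ‖x‖ (deriv ρ ‖x‖)
    (ρ ‖x‖ * bet N ρ h ‖x‖) hn (norm_sq3 x) hvx (by
      rw [abs_mul, abs_of_pos hr]
      exact hw)
  simp only at hq
  have hmu : 2 * muQ N ρ h x = scalQ N ρ x - nsq N ρ h x + trQ N ρ h x ^ 2 := by
    rw [muQ]
    ring
  have hJ : Jnu N ρ h x = Hs N ρ x * (hnu N h x - trSph ρ h x / 2) - dr (trSph ρ h) x / N x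
    + dQ N ρ h x := rfl
  have hsc : scalQ N ρ x = 2 / ρ ‖x‖ ^ 2 - 3 / 2 * Hs N ρ x ^ 2 - 2 / N x * dr (Hs N ρ) x
    - 2 * lapS N x / (N x * ρ ‖x‖ ^ 2) := rfl
  have hdQ : dQ N ρ h x = ‖x‖ / ρ ‖x‖ ^ 2 *
      ((∑ i, pd i (fun y => N y * tanV h i y) x) / N x ^ 2) := by
    rw [dQ]
    field_simp
  rw [hdiv] at hdQ
  rw [tr_eq] at hmu
  rw [htr] at hmu hJ hnsq
  rw [hdt, hH] at hJ
  rw [hdH, hH] at hsc
  have hid := ident (ρ ‖x‖) (deriv ρ ‖x‖) (deriv (deriv ρ) ‖x‖) (bet N ρ h ‖x‖)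
    (deriv (bet N ρ h) ‖x‖) (N x) (dr N x) (hnu N h x) (lapS N x) (dQ N ρ h x) hr.ne' hN.ne'
  rw [← hJ, ← hsc] at hid
  have hG : Gf N ρ (bet N ρ h) x = _ := hid
  rw [hG]
  set r := ρ ‖x‖ with hrdef
  set r1 := deriv ρ ‖x‖ with hr1def
  set b := bet N ρ h ‖x‖ with hbdef
  set M := muQ N ρ h x with hMdef
  set Jn := Jnu N ρ h x with hJdef
  set VV := ∑ i, tanV h i x ^ 2 with hVV
  set VP := ∑ i, tanV h i x * pd i N x with hVP
  set RR := ∑ i, ∑ j, (x i * pd j N x - x j * pd i N x) ^ 2 with hRR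
  have hr1 : 0 ≤ r1 := le_trans (by positivity) hw
  have e1 : 2 * M + 2 * VV / (r ^ 2 * N x ^ 2) ≤
      scalQ N ρ x + 4 * hnu N h x * b / N x + 2 * b ^ 2 / N x ^ 2 := by
    have h1 : (hnu N h x + 2 * b / N x) ^ 2 = hnu N h x ^ 2 + 4 * hnu N h x * b / N x
        + 4 * b ^ 2 / N x ^ 2 := by
      field_simp
      ring
    have h2 : (2 * b / N x) ^ 2 / 2 = 2 * b ^ 2 / N x ^ 2 := by
      field_simp
    rw [h2] at hnsq
    rw [h1] at hmu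
    have h3 : 4 * b ^ 2 / N x ^ 2 = 2 * b ^ 2 / N x ^ 2 + 2 * b ^ 2 / N x ^ 2 := by ring
    linarith
  have e2 := mul_le_mul_of_nonneg_left e1 (show 0 ≤ r ^ 2 * r1 / 4 by positivity)
  have e3 : r ^ 3 * b / 2 * Jn ≤ r ^ 2 * r1 / 2 * M := by
    have h1 : b * Jn ≤ |b| * M := by
      calc b * Jn ≤ |b * Jn| := le_abs_self _
        _ = |b| * |Jn| := abs_mul _ _
        _ ≤ |b| * M := mul_le_mul_of_nonneg_left hb (abs_nonneg _)
    have hM : 0 ≤ M := le_trans (abs_nonneg _) hb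
    have h2 : r * |b| * M ≤ r1 * M := mul_le_mul_of_nonneg_right hw hM
    have h3 : r ^ 3 * b / 2 * Jn = r ^ 2 / 2 * (r * (b * Jn)) := by ring
    have h4 : r * (b * Jn) ≤ r1 * M := by
      calc r * (b * Jn) ≤ r * (|b| * M) := mul_le_mul_of_nonneg_left h1 hr.le
        _ = r * |b| * M := by ring
        _ ≤ r1 * M := h2
    rw [h3]
    calc r ^ 2 / 2 * (r * (b * Jn)) ≤ r ^ 2 / 2 * (r1 * M) :=
          mul_le_mul_of_nonneg_left h4 (by positivity)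
      _ = r ^ 2 * r1 / 2 * M := by ring
  have e4 : r ^ 3 * b / 2 * dQ N ρ h x = r * b * ‖x‖ / 2 * dv N h x +
      r * b * ‖x‖ * VP / N x ^ 2 := by
    rw [hdQ]
    field_simp
  have e5 : r1 / 2 * lapS N x / N x = r1 / 4 * rr N x + r1 / 4 * RR / N x ^ 2 := by
    rw [mul_div_assoc, hlap]
    ring
  have e6 : r ^ 2 * r1 / 4 * (2 * M + 2 * VV / (r ^ 2 * N x ^ 2)) =
      r ^ 2 * r1 / 2 * M + r1 / 2 * VV / N x ^ 2 := by
    field_simp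
    ring
  have e7 : 0 ≤ (r1 / 2 * VV + r * b * ‖x‖ * VP + r1 / 4 * RR) / N x ^ 2 :=
    div_nonneg hq (by positivity)
  have e8 : (r1 / 2 * VV + r * b * ‖x‖ * VP + r1 / 4 * RR) / N x ^ 2 =
      r1 / 2 * VV / N x ^ 2 + r * b * ‖x‖ * VP / N x ^ 2 + r1 / 4 * RR / N x ^ 2 := by ring
  rw [e4, e5]
  rw [e6] at e2
  rw [e8] at e7
  linarith


end

end Pool.Agent.H921.QX
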