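import Pool.Agent.H921.QX.A

set_option autoImplicit false

namespace Pool.Agent.H921.QX

open Filter Topology MeasureTheory Pool.Agent.N795.PI Pool.Agent.N774.PIA Pool.Agent.H921.QP

variable {N : E3 → ℝ} {ρ : ℝ → ℝ} {h : Fin 3 → Fin 3 → E3 → ℝ} {t0 m : ℝ}

section
variable (D : IsQExt N ρ h t0 m)
include D

lemma IsQExt.c1N (x : E3) (hx : x ≠ 0) : ContDiffAt ℝ 1 N x := (D.cN hx).of_le (by norm_num)

lemma IsQExt.c1V (i : Fin 3) (x : E3) (hx : x ≠ 0) :
    ContDiffAt ℝ 1 (fun y => tanV h i y / N y) x :=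
  (cd_tanV D.ten i hx).div (D.c1N x hx) (D.posN x hx).ne'

lemma IsQExt.c1Q (x : E3) (hx : x ≠ 0) : ContDiffAt ℝ 1 (fun y => (N y ^ 2)⁻¹) x :=
  ((D.c1N x hx).pow 2).inv (pow_ne_zero 2 (D.posN x hx).ne')

lemma IsQExt.c1rot (i j : Fin 3) (x : E3) (hx : x ≠ 0) :
    ContDiffAt ℝ 1 (fun y => rot i j N y / N y) x :=
  (D.drot hx i j).div (D.c1N x hx) (D.posN x hx).ne'

lemma IsQExt.co_dv : CO (dv N h) := by
  unfold dv
  exact co_sum _ fun i => co_pd (D.c1V i) i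

lemma IsQExt.co_rr : CO (rr N) := by
  unfold rr
  exact co_sum _ fun i => co_sum _ fun j => co_rot (D.c1rot i j) i j

lemma IsQExt.mean_dv {t : ℝ} (ht : 0 < t) : mean (dv N h) t = 0 := by
  rw [mean_eq]
  refine mean_div (V := fun i y => tanV h i y / N y) (fun i x hx => D.c1V i x hx)
    (fun x hx => ?_) ht
  have h1 := tanV_orth (h := h) hx
  have h2 : ∑ i, tanV h i x / N x * x i = (∑ i, tanV h i x * x i) / N x := by
    rw [Finset.sum_div]
    refine Finset.sum_congr rfl fun i _ => ?_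
    ring
  rw [h2, h1, zero_div]

lemma IsQExt.mean_rr {t : ℝ} (ht : 0 < t) : mean (rr N) t = 0 := by
  have h1 : mean (rr N) t = ∑ i, ∑ j, mean (rot i j (fun y => rot i j N y / N y)) t := by
    unfold rr
    rw [mean_sum _ (fun i => co_sum _ fun j => co_rot (D.c1rot i j) i j) ht]
    refine Finset.sum_congr rfl fun i _ => ?_
    rw [mean_sum _ (fun j => co_rot (D.c1rot i j) i j) ht]
  rw [h1]
  refine Finset.sum_eq_zero fun i _ => Finset.sum_eq_zero fun j _ => ?_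
  exact mean_rot (D.c1rot i j) ht i j

lemma IsQExt.dr_inv {x : E3} (hx : x ≠ 0) :
    dr (fun y => (N y ^ 2)⁻¹) x = -2 * (dr N x / N x ^ 3) := by
  have hN := (D.posN x hx).ne'
  have hd := D.dN hx
  have g : HasDerivAt (fun s : ℝ => (s ^ 2)⁻¹) (-(2 * N x) / (N x ^ 2) ^ 2) (N x) := by
    have h0 := (hasDerivAt_pow 2 (N x)).fun_inv (pow_ne_zero 2 hN)
    simpa using h0
  have h1 := (g.comp_hasFDerivAt x hd.hasFDerivAt).fderiv
  have h2 : fderiv ℝ (fun y => (N y ^ 2)⁻¹) x x = -2 * fderiv ℝ N x x / N x ^ 3 := by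
    have h3 : fderiv ℝ (fun y => (N y ^ 2)⁻¹) x =
        (-(2 * N x) / (N x ^ 2) ^ 2) • fderiv ℝ N x := h1
    rw [h3]
    simp only [smul_apply, smul_eq_mul]
    field_simp
  rw [dr, h2, dr]
  ring

lemma IsQExt.co_dr3 : CO (fun x => dr N x / N x ^ 3) := by
  intro x hx
  have h1 : ContDiffAt ℝ 0 (fderiv ℝ N) x := (D.c1N x hx).fderiv_right (by norm_num)
  have h2 : ContinuousAt (fun y => fderiv ℝ N y y) x := h1.continuousAt.clm_apply continuousAt_id
  have h3 : ContinuousAt (dr N) x := h2.div continuousAt_id.norm (norm_ne_zero_iff.2 hx)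
  exact h3.div ((D.c1N x hx).continuousAt.pow 3) (pow_ne_zero 3 (D.posN x hx).ne')

lemma IsQExt.co_q : CO (fun x => (N x ^ 2)⁻¹) := fun x hx => (D.c1Q x hx).continuousAt

lemma IsQExt.hqq {t : ℝ} (ht : 0 < t) :
    HasDerivAt (qq N) (-2 * mean (fun x => dr N x / N x ^ 3) t) t := by
  have h1 := mean_deriv D.c1Q ht
  have h2 : ∫ w : S2, fderiv ℝ (fun y => (N y ^ 2)⁻¹) (t • (w : E3)) (w : E3) ∂nu =
      -2 * mean (fun x => dr N x / N x ^ 3) t := by
    rw [← mean_smul, mean_eq]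
    refine integral_congr_ae (Eventually.of_forall fun w => ?_)
    change fderiv ℝ (fun y => (N y ^ 2)⁻¹) (t • (w : E3)) (w : E3) =
      -2 * (dr N (t • (w : E3)) / N (t • (w : E3)) ^ 3)
    rw [← dr_tw ht w, D.dr_inv (tw_ne ht w)]
  rw [h2] at h1
  exact h1

/-- the derivative of the averaged mass aspect -/
lemma IsQExt.hmb {t : ℝ} (ht : 0 < t) :
    HasDerivAt (mb N ρ (bet N ρ h)) (mean (Gf N ρ (bet N ρ h)) t) t := by
  set b := bet N ρ h with hb
  have h1 : mean (Gf N ρ b) t =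
      deriv ρ t / 2 + ((-(deriv ρ t / 2 * (deriv ρ t ^ 2 - ρ t ^ 2 * b t ^ 2)) - ρ t / 2 *
        (2 * deriv ρ t * deriv (deriv ρ) t - 2 * ρ t * deriv ρ t * b t ^ 2
          - 2 * ρ t ^ 2 * b t * deriv b t)) * qq N t +
        ρ t * (deriv ρ t ^ 2 - ρ t ^ 2 * b t ^ 2) * mean (fun x => dr N x / N x ^ 3) t) := by
    have h2 : mean (Gf N ρ b) t = mean (fun x => deriv ρ t / 2 +
        ((-(deriv ρ t / 2 * (deriv ρ t ^ 2 - ρ t ^ 2 * b t ^ 2)) - ρ t / 2 *
        (2 * deriv ρ t * deriv (deriv ρ) t - 2 * ρ t * deriv ρ t * b t ^ 2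
          - 2 * ρ t ^ 2 * b t * deriv b t)) * (N x ^ 2)⁻¹ +
        ρ t * (deriv ρ t ^ 2 - ρ t ^ 2 * b t ^ 2) * (dr N x / N x ^ 3))) t := by
      refine mean_congr ht fun x hx => ?_
      have hx0 : x ≠ 0 := by
        rw [← norm_pos_iff, hx]
        exact ht
      have hN := (D.posN x hx0).ne'
      rw [Gf, hx]
      field_simp
      ring
    rw [h2, mean_add (cc _) (ca (cm _ D.co_q) (cm _ D.co_dr3)) ht,
      mean_add (cm _ D.co_q) (cm _ D.co_dr3) ht, mean_smul, mean_smul, mean_const]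
    rfl
  rw [h1]
  have h3 := (D.hR ht).div_const 2
  have h4 := D.hdR ht
  have h5 := D.hR ht
  have h6 := D.hbet ht
  have h7 := D.hqq ht
  have h8 := h3.mul (((((h4.pow 2).sub ((h5.pow 2).mul (h6.pow 2))).mul h7)).const_sub 1)
  refine (h8.congr_deriv ?_)
  simp only [← hb]
  norm_num
  ring

theorem IsQExt.mb_nonneg {t : ℝ} (ht : 0 < t) (htt : t0 < t)
    (hw : ρ t * |bet N ρ h t| ≤ deriv ρ t) : 0 ≤ mean (Gf N ρ (bet N ρ h)) t := by
  set b := bet N ρ h with hb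
  -- replace `Gf` by a continuous function on the sphere
  have h2 : mean (Gf N ρ b) t = mean (fun x => deriv ρ t / 2 +
        ((-(deriv ρ t / 2 * (deriv ρ t ^ 2 - ρ t ^ 2 * b t ^ 2)) - ρ t / 2 *
        (2 * deriv ρ t * deriv (deriv ρ) t - 2 * ρ t * deriv ρ t * b t ^ 2
          - 2 * ρ t ^ 2 * b t * deriv b t)) * (N x ^ 2)⁻¹ +
        ρ t * (deriv ρ t ^ 2 - ρ t ^ 2 * b t ^ 2) * (dr N x / N x ^ 3))) t := by
    refine mean_congr ht fun x hx => ?_
    have hx0 : x ≠ 0 := by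
      rw [← norm_pos_iff, hx]
      exact ht
    have hN := (D.posN x hx0).ne'
    rw [Gf, hx]
    field_simp
    ring
  have h3 : mean (fun x => ρ t * b t * t / 2 * dv N h x + deriv ρ t / 4 * rr N x) t = 0 := by
    rw [mean_add (cm _ D.co_dv) (cm _ D.co_rr) ht, mean_smul, mean_smul, D.mean_dv ht,
      D.mean_rr ht, mul_zero, mul_zero, add_zero]
  rw [← h3, h2]
  refine mean_mono (ca (cm _ D.co_dv) (cm _ D.co_rr))
    (ca (cc _) (ca (cm _ D.co_q) (cm _ D.co_dr3))) ht fun x hx => ?_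
  have hx0 : x ≠ 0 := by
    rw [← norm_pos_iff, hx]
    exact ht
  have hN := (D.posN x hx0).ne'
  have h4 := D.ptw hx0 (by rw [hx]; exact htt) (by rw [hx]; exact hw)
  rw [hx, ← hb] at h4
  refine h4.trans (le_of_eq ?_)
  rw [Gf, hx]
  field_simp
  ring


end

end Pool.Agent.H921.QX
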