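import Pool.Agent.H921.QX.B

set_option autoImplicit false

namespace Pool.Agent.H921.QX

open Filter Topology MeasureTheory Pool.Agent.N795.PI Pool.Agent.N774.PIA Pool.Agent.H921.QP

variable {N : E3 → ℝ} {ρ : ℝ → ℝ} {h : Fin 3 → Fin 3 → E3 → ℝ} {t0 m : ℝ}

section
variable (D : IsQExt N ρ h t0 m)
include D

theorem IsQExt.bound : ∃ K T : ℝ, 0 ≤ K ∧ 1 ≤ T ∧ (∀ t, T ≤ t → ρ t = t) ∧
    ∀ x : E3, T ≤ ‖x‖ → 1 / 2 ≤ N x ∧ N x ≤ 2 ∧ |trSph ρ h x| ≤ K / ‖x‖ ^ 2 := by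
  obtain ⟨T0', hT0'⟩ := D.endR
  obtain ⟨C1, R1, hC1'⟩ := D.endN
  obtain ⟨C', R2, hC'⟩ := D.endH
  obtain ⟨T0, hT0d⟩ : ∃ T0, T0 = max T0' (max R1 R2) := ⟨_, rfl⟩
  obtain ⟨C, hCd⟩ : ∃ C, C = |C'| := ⟨_, rfl⟩
  have hC0 : 0 ≤ C := by
    rw [hCd]
    exact abs_nonneg _
  have hT0 : ∀ t : ℝ, T0 ≤ t → ρ t = t := fun t ht =>
    hT0' t (le_trans (le_max_left _ _) (hT0d ▸ ht))
  have hC1 : ∀ x : E3, T0 ≤ ‖x‖ → |N x - 1| ≤ C1 / ‖x‖ ∧ ∀ i, |pd i N x| ≤ C1 / ‖x‖ ^ 2 :=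
    fun x hx => hC1' x (le_trans (le_trans (le_max_left _ _) (le_max_right _ _)) (hT0d ▸ hx))
  have hC : ∀ x : E3, T0 ≤ ‖x‖ → 1 ≤ ‖x‖ → ∀ i j, |h i j x| ≤ C / ‖x‖ ^ 2 := by
    intro x hx hx1 i j
    refine (hC' x (le_trans (le_trans (le_max_right _ _) (le_max_right _ _)) (hT0d ▸ hx)) i j).trans ?_
    rw [hCd]
    gcongr
    exact le_abs_self _
  refine ⟨12 * C, max (max T0 1) (2 * |C1|), by positivity,
    le_trans (le_max_right _ _) (le_max_left _ _),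
    fun t ht => hT0 t (le_trans (le_trans (le_max_left _ _) (le_max_left _ _)) ht), fun x hx => ?_⟩
  have hx1 : 1 ≤ ‖x‖ := le_trans (le_trans (le_max_right _ _) (le_max_left _ _)) hx
  have hx2 : 2 * |C1| ≤ ‖x‖ := le_trans (le_max_right _ _) hx
  have hx3 : ρ ‖x‖ = ‖x‖ := hT0 _ (le_trans (le_trans (le_max_left _ _) (le_max_left _ _)) hx)
  have hxp : 0 < ‖x‖ := by linarith
  have hxT : T0 ≤ ‖x‖ := le_trans (le_trans (le_max_left _ _) (le_max_left _ _)) hx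
  have h1 := (hC1 x hxT).1
  have h2 : C1 / ‖x‖ ≤ 1 / 2 := by
    rw [div_le_iff₀ hxp]
    have := le_abs_self C1
    linarith
  have h3 := abs_le.1 (h1.trans h2)
  refine ⟨by linarith, by linarith, ?_⟩
  have hb := hC x hxT hx1
  have hxi : ∀ i, |x i| ≤ ‖x‖ := fun i => by
    have h3 : x i ^ 2 ≤ ‖x‖ ^ 2 := by
      rw [EuclideanSpace.norm_sq_eq]
      have := Finset.single_le_sum (f := fun i => ‖x i‖ ^ 2) (fun i _ => sq_nonneg _)
        (Finset.mem_univ i)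
      simpa [Real.norm_eq_abs, sq_abs] using this
    exact abs_le_of_sq_le_sq h3 hxp.le
  have h4 : |trE h x| ≤ 3 * (C / ‖x‖ ^ 2) := by
    rw [trE]
    refine (Finset.abs_sum_le_sum_abs _ _).trans ?_
    calc ∑ i, |h i i x| ≤ ∑ _i : Fin 3, C / ‖x‖ ^ 2 := Finset.sum_le_sum fun i _ => hb i i
      _ = 3 * (C / ‖x‖ ^ 2) := by simp
  have h5 : |lam h x| ≤ 9 * (C / ‖x‖ ^ 2) := by
    rw [lam, abs_div, abs_of_pos (by positivity : 0 < ‖x‖ ^ 2), div_le_iff₀ (by positivity)]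
    refine (Finset.abs_sum_le_sum_abs _ _).trans ?_
    calc ∑ i, |∑ j, h i j x * x i * x j| ≤ ∑ _i : Fin 3, 3 * (C / ‖x‖ ^ 2 * ‖x‖ ^ 2) := by
          refine Finset.sum_le_sum fun i _ => (Finset.abs_sum_le_sum_abs _ _).trans ?_
          calc ∑ j, |h i j x * x i * x j| ≤ ∑ _j : Fin 3, C / ‖x‖ ^ 2 * ‖x‖ ^ 2 := by
                refine Finset.sum_le_sum fun j _ => ?_
                rw [abs_mul, abs_mul]
                calc |h i j x| * |x i| * |x j| ≤ C / ‖x‖ ^ 2 * ‖x‖ * ‖x‖ := by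
                      gcongr
                      · exact hb i j
                      · exact hxi i
                      · exact hxi j
                  _ = C / ‖x‖ ^ 2 * ‖x‖ ^ 2 := by ring
            _ = 3 * (C / ‖x‖ ^ 2 * ‖x‖ ^ 2) := by simp
      _ = 9 * (C / ‖x‖ ^ 2) * ‖x‖ ^ 2 := by
          simp
          ring
  rw [trSph, hx3, div_self hxp.ne', one_pow, one_mul]
  calc |trE h x - lam h x| ≤ |trE h x| + |lam h x| := abs_sub _ _
    _ ≤ 12 * (C / ‖x‖ ^ 2) := by linarith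
    _ = 12 * C / ‖x‖ ^ 2 := by ring

theorem IsQExt.bet_bound : ∃ K T : ℝ, 0 ≤ K ∧ 1 ≤ T ∧
    (∀ x : E3, T ≤ ‖x‖ → 1 / 2 ≤ N x) ∧
    ∀ t, T < t → ρ t = t ∧ deriv ρ t = 1 ∧ |bet N ρ h t| ≤ K / t ^ 2 := by
  obtain ⟨K, T, hK, hT, hr, hb⟩ := D.bound
  refine ⟨K, T, hK, hT, fun x hx => (hb x hx).1, fun t ht => ⟨hr t ht.le, ?_, ?_⟩⟩
  · have h1 : ρ =ᶠ[𝓝 t] id := by
      filter_upwards [lt_mem_nhds ht] with s hs
      exact hr s hs.le
    rw [h1.deriv_eq]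
    exact deriv_id t
  · have ht0 : 0 < t := by linarith
    have hn := norm_te0 ht0
    obtain ⟨h1, h2, h3⟩ := hb (t • e0) (by rw [hn]; exact ht.le)
    rw [hn] at h3
    rw [bet, abs_div, abs_mul, abs_two, abs_of_nonneg (by linarith : (0 : ℝ) ≤ N (t • e0))]
    calc N (t • e0) * |trSph ρ h (t • e0)| / 2 ≤ 2 * (K / t ^ 2) / 2 := by gcongr
      _ = K / t ^ 2 := by ring

theorem IsQExt.main_of (hflux : ∀ T : ℝ, (∀ t, T ≤ t → ρ t = t) → ∀ t, 0 < t → T < t →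
      flux N ρ t = mean (fun x => t / 2 * (N x ^ 2 - 1)) t)
    {t1 : ℝ} (ht1 : 0 < t1) (ht01 : t0 ≤ t1) (he : deriv ρ t1 = ρ t1 * |bet N ρ h t1|)
    (haft : ∀ t, t1 < t → ρ t * |bet N ρ h t| < deriv ρ t) : ρ t1 / 2 ≤ m := by
  obtain ⟨K, T, hK, hT, hN, hb⟩ := D.bet_bound
  obtain ⟨T0, hT0⟩ := D.endR
  have hmono : MonotoneOn (mb N ρ (bet N ρ h)) (Set.Ici t1) := by
    refine monotoneOn_of_deriv_nonneg (convex_Ici t1)
      (fun t ht => (D.hmb (ht1.trans_le ht)).continuousAt.continuousWithinAt) ?_ ?_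
    · intro t ht
      rw [interior_Ici] at ht
      exact (D.hmb (ht1.trans ht)).differentiableAt.differentiableWithinAt
    · intro t ht
      rw [interior_Ici] at ht
      rw [(D.hmb (ht1.trans ht)).deriv]
      exact D.mb_nonneg (ht1.trans ht) (lt_of_le_of_lt ht01 ht) (haft t ht).le
  have h0 : mb N ρ (bet N ρ h) t1 = ρ t1 / 2 := by
    have h1 : deriv ρ t1 ^ 2 - ρ t1 ^ 2 * bet N ρ h t1 ^ 2 = 0 := by
      rw [he, mul_pow, sq_abs]
      ring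
    rw [mb, h1]
    ring
  have hlim : Tendsto (fun t => flux N ρ t + 2 * K ^ 2 / t) atTop (𝓝 (m + 0)) := by
    refine D.mass.add ?_
    exact tendsto_const_nhds.div_atTop tendsto_id
  rw [add_zero] at hlim
  refine ge_of_tendsto hlim ?_
  filter_upwards [eventually_gt_atTop (max (max T T0) t1)] with t ht
  have htT : T < t := lt_of_le_of_lt (le_trans (le_max_left _ _) (le_max_left _ _)) ht
  have htT0 : T0 < t := lt_of_le_of_lt (le_trans (le_max_right _ _) (le_max_left _ _)) ht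
  have ht1' : t1 < t := lt_of_le_of_lt (le_max_right _ _) ht
  have htp : 0 < t := by linarith
  obtain ⟨e1, e2, e3⟩ := hb t htT
  have h2 : ρ t1 / 2 ≤ mb N ρ (bet N ρ h) t := by
    rw [← h0]
    exact hmono (Set.mem_Ici.2 le_rfl) (Set.mem_Ici.2 ht1'.le) ht1'.le
  have h3 := hflux T0 hT0 t htp htT0
  have hq4 : qq N t ≤ 4 := by
    have h4 : qq N t ≤ mean (fun _ => 4) t := by
      refine mean_mono D.co_q (cc 4) htp fun x hx => ?_
      have h5 := hN x (by rw [hx]; exact htT.le)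
      rw [inv_le_comm₀ (by positivity) (by norm_num)]
      nlinarith
    rwa [mean_const] at h4
  have h6 : t / 2 * (1 - qq N t) ≤ flux N ρ t := by
    rw [h3]
    have h7 : t / 2 * (1 - qq N t) = mean (fun x => t / 2 + (-(t / 2)) * (N x ^ 2)⁻¹) t := by
      rw [mean_add (cc _) (cm _ D.co_q) htp, mean_smul, mean_const, qq]
      ring
    rw [h7]
    have hco : CO (fun x => N x ^ 2 - 1) := fun x hx =>
      ((D.c1N x hx).continuousAt.pow 2).sub continuousAt_const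
    refine mean_mono (ca (cc _) (cm _ D.co_q)) (cm (t / 2) hco) htp fun x hx => ?_
    have hx0 : x ≠ 0 := by
      rw [← norm_pos_iff, hx]
      exact htp
    have hNx := D.posN x hx0
    have h8 : 2 ≤ N x ^ 2 + (N x ^ 2)⁻¹ := by
      have h9 : 0 ≤ (N x - (N x)⁻¹) ^ 2 := sq_nonneg _
      have h10 : (N x - (N x)⁻¹) ^ 2 = N x ^ 2 + (N x ^ 2)⁻¹ - 2 := by
        field_simp
        ring
      linarith
    have h11 : t / 2 * (N x ^ 2 - 1) - (t / 2 + -(t / 2) * (N x ^ 2)⁻¹) =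
        t / 2 * (N x ^ 2 + (N x ^ 2)⁻¹ - 2) := by ring
    have h12 : 0 ≤ t / 2 * (N x ^ 2 + (N x ^ 2)⁻¹ - 2) :=
      mul_nonneg (by positivity) (by linarith)
    linarith
  have h7 : t ^ 3 * bet N ρ h t ^ 2 * qq N t / 2 ≤ 2 * K ^ 2 / t := by
    have h8 : bet N ρ h t ^ 2 ≤ (K / t ^ 2) ^ 2 := by
      rw [← sq_abs (bet N ρ h t)]
      exact pow_le_pow_left₀ (abs_nonneg _) e3 2
    have hq0 : 0 ≤ qq N t := by
      have h4 : mean (fun _ => (0 : ℝ)) t ≤ qq N t := by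
        refine mean_mono (cc 0) D.co_q htp fun x hx => ?_
        positivity
      rwa [mean_const] at h4
    calc t ^ 3 * bet N ρ h t ^ 2 * qq N t / 2 ≤ t ^ 3 * (K / t ^ 2) ^ 2 * 4 / 2 := by gcongr
      _ = 2 * K ^ 2 / t := by
        field_simp
        ring
  have h8 : mb N ρ (bet N ρ h) t = t / 2 * (1 - qq N t) + t ^ 3 * bet N ρ h t ^ 2 * qq N t / 2 := by
    rw [mb, e1, e2]
    ring
  linarith


lemma IsQExt.abs_tr {x : E3} (hx : x ≠ 0) (hxt : t0 ≤ ‖x‖) : |trSph ρ h x| = 2 * |bet N ρ h ‖x‖| / N x := by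
  rw [D.tr_eq_bet hx hxt, abs_div, abs_mul, abs_two, abs_of_pos (D.posN x hx)]

lemma IsQExt.tr_lt {x : E3} (hx : x ≠ 0) (hxt : t0 ≤ ‖x‖) :
    |trSph ρ h x| < Hs N ρ x ↔ ρ ‖x‖ * |bet N ρ h ‖x‖| < deriv ρ ‖x‖ := by
  have hN := D.posN x hx
  have hr := D.posR _ (norm_pos_iff.2 hx)
  rw [D.abs_tr hx hxt, Hs, div_lt_div_iff₀ hN (by positivity)]
  constructor
  · intro h1
    have h2 : (2 * N x) * (ρ ‖x‖ * |bet N ρ h ‖x‖|) < (2 * N x) * deriv ρ ‖x‖ := by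
      calc (2 * N x) * (ρ ‖x‖ * |bet N ρ h ‖x‖|) = 2 * |bet N ρ h ‖x‖| * (ρ ‖x‖ * N x) := by ring
        _ < 2 * deriv ρ ‖x‖ * N x := h1
        _ = (2 * N x) * deriv ρ ‖x‖ := by ring
    exact lt_of_mul_lt_mul_left h2 (by positivity)
  · intro h1
    calc 2 * |bet N ρ h ‖x‖| * (ρ ‖x‖ * N x) = (2 * N x) * (ρ ‖x‖ * |bet N ρ h ‖x‖|) := by ring
      _ < (2 * N x) * deriv ρ ‖x‖ := by
        exact mul_lt_mul_of_pos_left h1 (by positivity)
      _ = 2 * deriv ρ ‖x‖ * N x := by ring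

lemma IsQExt.tr_eq_of {x : E3} (hx : x ≠ 0) (hxt : t0 ≤ ‖x‖)
    (he : deriv ρ ‖x‖ = ρ ‖x‖ * |bet N ρ h ‖x‖|) : |trSph ρ h x| = Hs N ρ x := by
  have hN := D.posN x hx
  have hr := D.posR _ (norm_pos_iff.2 hx)
  rw [D.abs_tr hx hxt, Hs, he]
  field_simp


end

end Pool.Agent.H921.QX
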