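import Pool.Agent.H921.QP.Hor4

/-!
# Quasi-spherical data: the quantities are local
-/

set_option autoImplicit false

namespace Pool.Agent.H921.QX

open Filter Topology MeasureTheory Pool.Agent.N795.PI Pool.Agent.N774.PIA Pool.Agent.H921.QP

variable {r : ℝ}

lemma ev_on {F G : E3 → ℝ} (h : ∀ y, r < ‖y‖ → F y = G y) {y : E3} (hy : r < ‖y‖) :
    F =ᶠ[𝓝 y] G := by
  filter_upwards [(isOpen_lt continuous_const continuous_norm).mem_nhds hy] with z hz
  exact h z hz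

lemma pd_on {F G : E3 → ℝ} (h : ∀ y, r < ‖y‖ → F y = G y) (i : Fin 3) :
    ∀ y, r < ‖y‖ → pd i F y = pd i G y := fun y hy => by
  unfold pd
  rw [(ev_on h hy).fderiv_eq]

lemma dr_on {F G : E3 → ℝ} (h : ∀ y, r < ‖y‖ → F y = G y) :
    ∀ y, r < ‖y‖ → dr F y = dr G y := fun y hy => by
  unfold dr
  rw [(ev_on h hy).fderiv_eq]

lemma rot_on {F G : E3 → ℝ} (h : ∀ y, r < ‖y‖ → F y = G y) (i j : Fin 3) :
    ∀ y, r < ‖y‖ → rot i j F y = rot i j G y := fun y hy => by
  unfold rot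
  rw [pd_on h i y hy, pd_on h j y hy]

lemma lapS_on {F G : E3 → ℝ} (h : ∀ y, r < ‖y‖ → F y = G y) :
    ∀ y, r < ‖y‖ → lapS F y = lapS G y := fun y hy => by
  unfold lapS
  have h1 : ∀ i j, rot i j (rot i j F) y = rot i j (rot i j G) y := fun i j =>
    rot_on (rot_on h i j) i j y hy
  simp only [h1]

lemma deriv_on {a b : ℝ → ℝ} (h : ∀ t, r < t → a t = b t) :
    ∀ t, r < t → deriv a t = deriv b t := fun t ht => by
  have h1 : a =ᶠ[𝓝 t] b := by
    filter_upwards [lt_mem_nhds ht] with s hs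
    exact h s hs
  exact h1.deriv_eq

section
variable {N N' : E3 → ℝ} {ρ ρ' : ℝ → ℝ} {h h' : Fin 3 → Fin 3 → E3 → ℝ} {F : E3 → ℝ}
  (hN : ∀ y, r < ‖y‖ → N' y = N y) (hR : ∀ t, r < t → ρ' t = ρ t)
  (hH : ∀ i j y, r < ‖y‖ → h' i j y = h i j y)

include hN hR in
lemma gij_on (i j : Fin 3) : ∀ y, r < ‖y‖ → gij N' ρ' i j y = gij N ρ i j y := fun y hy => by
  unfold gij
  rw [hN y hy, hR _ hy]

include hN hR in
lemma ginv_on (i j : Fin 3) : ∀ y, r < ‖y‖ → ginv N' ρ' i j y = ginv N ρ i j y := fun y hy => by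
  unfold ginv
  rw [hN y hy, hR _ hy]

include hN hR in
lemma Hs_on : ∀ y, r < ‖y‖ → Hs N' ρ' y = Hs N ρ y := fun y hy => by
  unfold Hs
  rw [hN y hy, hR _ hy, deriv_on hR _ hy]

include hN hR in
lemma scalQ_on : ∀ y, r < ‖y‖ → scalQ N' ρ' y = scalQ N ρ y := fun y hy => by
  unfold scalQ
  rw [hN y hy, hR _ hy, Hs_on hN hR y hy, dr_on (Hs_on hN hR) y hy, lapS_on hN y hy]

include hN hR hH in
lemma trQ_on : ∀ y, r < ‖y‖ → trQ N' ρ' h' y = trQ N ρ h y := fun y hy => by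
  unfold trQ
  simp only [ginv_on hN hR _ _ y hy, hH _ _ y hy]

include hN hR hH in
lemma nsq_on : ∀ y, r < ‖y‖ → nsq N' ρ' h' y = nsq N ρ h y := fun y hy => by
  unfold nsq
  simp only [ginv_on hN hR _ _ y hy, hH _ _ y hy]

include hN hR hH in
lemma muQ_on : ∀ y, r < ‖y‖ → muQ N' ρ' h' y = muQ N ρ h y := fun y hy => by
  unfold muQ
  rw [scalQ_on hN hR y hy, nsq_on hN hR hH y hy, trQ_on hN hR hH y hy]

include hH in
lemma lam_on : ∀ y, r < ‖y‖ → lam h' y = lam h y := fun y hy => by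
  unfold lam
  simp only [hH _ _ y hy]

include hH in
lemma trE_on : ∀ y, r < ‖y‖ → trE h' y = trE h y := fun y hy => by
  unfold trE
  simp only [hH _ _ y hy]

include hH in
lemma tanV_on (i : Fin 3) : ∀ y, r < ‖y‖ → tanV h' i y = tanV h i y := fun y hy => by
  unfold tanV
  simp only [hH _ _ y hy, lam_on hH y hy]

include hN hH in
lemma hnu_on : ∀ y, r < ‖y‖ → hnu N' h' y = hnu N h y := fun y hy => by
  unfold hnu
  rw [lam_on hH y hy, hN y hy]

include hR hH in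
lemma trSph_on : ∀ y, r < ‖y‖ → trSph ρ' h' y = trSph ρ h y := fun y hy => by
  unfold trSph
  rw [lam_on hH y hy, trE_on hH y hy, hR _ hy]

include hN hR hH in
lemma dQ_on : ∀ y, r < ‖y‖ → dQ N' ρ' h' y = dQ N ρ h y := fun y hy => by
  unfold dQ
  have h1 : ∀ i, ∀ z, r < ‖z‖ → (fun y => N' y * tanV h' i y) z = (fun y => N y * tanV h i y) z :=
    fun i z hz => by
      simp only
      rw [hN z hz, tanV_on hH i z hz]
  have h2 : ∀ i, pd i (fun y => N' y * tanV h' i y) y = pd i (fun y => N y * tanV h i y) y :=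
    fun i => pd_on (h1 i) i y hy
  simp only [h2]
  rw [hN y hy, hR _ hy]

include hN hR hH in
lemma Jnu_on : ∀ y, r < ‖y‖ → QP.Jnu N' ρ' h' y = QP.Jnu N ρ h y := fun y hy => by
  unfold QP.Jnu
  rw [Hs_on hN hR y hy, hnu_on hN hH y hy, trSph_on hR hH y hy, dr_on (trSph_on hR hH) y hy,
    hN y hy, dQ_on hN hR hH y hy]

include hN hR in
lemma dens_on : ∀ y, r < ‖y‖ → dens N' ρ' y = dens N ρ y := fun y hy => by
  unfold dens
  rw [hN y hy, hR _ hy]

include hN hR in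
lemma gradSq_on : ∀ y, r < ‖y‖ → gradSq N' ρ' F y = gradSq N ρ F y := fun y hy => by
  unfold gradSq
  simp only [ginv_on hN hR _ _ y hy]

include hN hR in
lemma unitN_on (i : Fin 3) : ∀ y, r < ‖y‖ → unitN N' ρ' F i y = unitN N ρ F i y := fun y hy => by
  unfold unitN
  simp only [ginv_on hN hR _ _ y hy]
  rw [gradSq_on hN hR y hy]

include hN hR in
lemma meanC_on : ∀ y, r < ‖y‖ → meanC N' ρ' F y = meanC N ρ F y := fun y hy => by
  unfold meanC
  have h1 : ∀ i, ∀ z, r < ‖z‖ → (fun y => dens N' ρ' y * unitN N' ρ' F i y) z =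
      (fun y => dens N ρ y * unitN N ρ F i y) z := fun i z hz => by
    simp only
    rw [dens_on hN hR z hz, unitN_on hN hR i z hz]
  have h2 : ∀ i, pd i (fun y => dens N' ρ' y * unitN N' ρ' F i y) y =
      pd i (fun y => dens N ρ y * unitN N ρ F i y) y := fun i => pd_on (h1 i) i y hy
  simp only [h2]
  rw [dens_on hN hR y hy]

include hN hR hH in
lemma trSig_on : ∀ y, r < ‖y‖ → trSig N' ρ' h' F y = trSig N ρ h F y := fun y hy => by
  unfold trSig
  simp only [unitN_on hN hR _ y hy, hH _ _ y hy]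
  rw [trQ_on hN hR hH y hy]

include hN hR in
lemma flux_on {t : ℝ} (ht0 : 0 < t) (ht : r < t) : flux N' ρ' t = flux N ρ t := by
  unfold flux
  have hn : ∀ w : Metric.sphere (0 : E3) 1, r < ‖t • (w : E3)‖ := by
    intro w
    have h1 : ‖(w : E3)‖ = 1 := by
      have := w.2
      rwa [mem_sphere_zero_iff_norm] at this
    rw [norm_smul, h1, mul_one, Real.norm_eq_abs, abs_of_pos ht0]
    exact ht
  have h1 : ∀ (w : Metric.sphere (0 : E3) 1) (k i j : Fin 3),
      pd k (gij N' ρ' i j) (t • (w : E3)) = pd k (gij N ρ i j) (t • (w : E3)) := fun w k i j =>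
    pd_on (gij_on hN hR i j) k _ (hn w)
  simp only [h1]

end

end Pool.Agent.H921.QX
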