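import Pool.Agent.H921.QP.Hor4
import Pool.Agent.H921.QP.Flux

/-!
# Quasi-spherical data outside a sphere: the energy condition and the trace condition
are assumed only for `|x| ≥ t0`
-/

set_option autoImplicit false

namespace Pool.Agent.H921.QX

open Filter Topology MeasureTheory Pool.Agent.N795.PI Pool.Agent.N774.PIA Pool.Agent.H921.QP

/-- The data; the conditions on the matter and on the trace of `h` are assumed only for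
`|x| ≥ t0`. -/
structure IsQExt (N : E3 → ℝ) (ρ : ℝ → ℝ) (h : Fin 3 → Fin 3 → E3 → ℝ) (t0 m : ℝ) : Prop where
  posN : ∀ x : E3, x ≠ 0 → 0 < N x
  posR : ∀ t : ℝ, 0 < t → 0 < ρ t
  smoothN : ∀ x : E3, x ≠ 0 → ContDiffAt ℝ ((⊤ : ℕ∞) : WithTop ℕ∞) N x
  smoothR : ∀ t : ℝ, 0 < t → ContDiffAt ℝ ((⊤ : ℕ∞) : WithTop ℕ∞) ρ t
  symm : ∀ i j x, h i j x = h j i x
  smoothH : ∀ i j x, x ≠ 0 → ContDiffAt ℝ ((⊤ : ℕ∞) : WithTop ℕ∞) (h i j) x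
  dec : ∀ x, x ≠ 0 → t0 < ‖x‖ → |Jnu N ρ h x| ≤ muQ N ρ h x
  unif : ∀ x y : E3, x ≠ 0 → t0 ≤ ‖x‖ → ‖x‖ = ‖y‖ → N x * trSph ρ h x = N y * trSph ρ h y
  endR : ∃ T : ℝ, ∀ t : ℝ, T ≤ t → ρ t = t
  endN : ∃ C R : ℝ, ∀ x : E3, R ≤ ‖x‖ → |N x - 1| ≤ C / ‖x‖ ∧ ∀ i, |pd i N x| ≤ C / ‖x‖ ^ 2
  endH : ∃ C R : ℝ, ∀ x : E3, R ≤ ‖x‖ → ∀ i j, |h i j x| ≤ C / ‖x‖ ^ 2
  mass : Tendsto (flux N ρ) atTop (𝓝 m)

end Pool.Agent.H921.QX
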