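import Pool.Agent.H921.QP.Hor4

/-!
# The farthest zero in an exterior region
-/

set_option autoImplicit false

namespace Pool.Agent.H921.QX

open Filter Topology MeasureTheory Pool.Agent.N795.PI

theorem far_ext {r0 : ℝ} (hr0 : 0 ≤ r0) (F : E3 → ℝ) (hF : ∀ x : E3, r0 < ‖x‖ → ContinuousAt F x)
    (hex : ∃ x : E3, r0 < ‖x‖ ∧ F x = 0) (hout : ∃ R : ℝ, ∀ x : E3, R ≤ ‖x‖ → 0 < F x) :
    ∃ x : E3, r0 < ‖x‖ ∧ F x = 0 ∧ (∀ y : E3, ‖x‖ ≤ ‖y‖ → 0 ≤ F y) ∧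
      ∀ y : E3, ‖x‖ < ‖y‖ → 0 < F y := by
  obtain ⟨x0, hx0, hF0⟩ := hex
  obtain ⟨ρ, hρ⟩ := hout
  have hx0n : 0 < ‖x0‖ := lt_of_le_of_lt hr0 hx0
  have hA : IsClosed {x : E3 | ‖x0‖ ≤ ‖x‖} := isClosed_le continuous_const continuous_norm
  have hne : ∀ x : E3, ‖x0‖ ≤ ‖x‖ → r0 < ‖x‖ := fun x hx => hx0.trans_le hx
  have hcA : ContinuousOn F {x : E3 | ‖x0‖ ≤ ‖x‖} := fun x hx => (hF x (hne x hx)).continuousWithinAt
  have hZc : IsClosed ({x : E3 | ‖x0‖ ≤ ‖x‖} ∩ F ⁻¹' {0}) :=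
    hcA.preimage_isClosed_of_isClosed hA isClosed_singleton
  have hZb : Bornology.IsBounded ({x : E3 | ‖x0‖ ≤ ‖x‖} ∩ F ⁻¹' {0}) := by
    refine Metric.isBounded_closedBall.subset (?_ : _ ⊆ Metric.closedBall (0 : E3) ρ)
    rintro x ⟨_, hx⟩
    rw [mem_closedBall_zero_iff]
    by_contra hc
    push Not at hc
    have := hρ x hc.le
    rw [Set.mem_preimage, Set.mem_singleton_iff] at hx
    linarith
  have hZk : IsCompact ({x : E3 | ‖x0‖ ≤ ‖x‖} ∩ F ⁻¹' {0}) := Metric.isCompact_of_isClosed_isBounded hZc hZb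
  obtain ⟨x, hxZ, hmax⟩ := hZk.exists_isMaxOn ⟨x0, le_refl ‖x0‖, hF0⟩ continuous_norm.continuousOn
  have hmax' : ∀ z : E3, ‖x0‖ ≤ ‖z‖ → F z = 0 → ‖z‖ ≤ ‖x‖ := fun z h1 h2 => hmax ⟨h1, h2⟩
  have hx1 : ‖x0‖ ≤ ‖x‖ := hxZ.1
  have hpos : ∀ y : E3, ‖x‖ < ‖y‖ → 0 < F y := by
    intro y hy
    have hy0 : 0 < ‖y‖ := lt_of_le_of_lt (norm_nonneg _) hy
    by_contra hc
    push Not at hc
    rcases hc.lt_or_eq with h | h
    · set S : ℝ := max 1 (ρ / ‖y‖) with hS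
      have hS1 : 1 ≤ S := le_max_left _ _
      have hSy : ρ ≤ ‖S • y‖ := by
        rw [norm_smul, Real.norm_of_nonneg (by linarith)]
        have h2 : ρ / ‖y‖ ≤ S := le_max_right _ _
        rwa [div_le_iff₀ hy0] at h2
      have hsy : ∀ s : ℝ, 1 ≤ s → ‖y‖ ≤ ‖s • y‖ := fun s hs => by
        rw [norm_smul, Real.norm_of_nonneg (by linarith)]
        nlinarith
      have hg : ContinuousOn (fun s : ℝ => F (s • y)) (Set.Icc 1 S) := by
        intro s hs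
        have h1 : ContinuousAt (fun s : ℝ => s • y) s := by fun_prop
        exact (ContinuousAt.comp (f := fun s : ℝ => s • y)
          (hF (s • y) (hne _ (hx1.trans (hy.le.trans (hsy s hs.1))))) h1).continuousWithinAt
      have hiv := intermediate_value_Icc hS1 hg
      obtain ⟨s, hs, hs2⟩ := hiv ⟨by simpa using h.le, (hρ _ hSy).le⟩
      have h3 : ‖y‖ ≤ ‖s • y‖ := hsy s hs.1
      have h4 := hmax' (s • y) (by linarith) hs2
      linarith
    · have := hmax' y (by linarith) h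
      linarith
  refine ⟨x, hne x hx1, hxZ.2, fun y hy => ?_, hpos⟩
  rcases hy.lt_or_eq with h | h
  · exact (hpos y h).le
  · have hyr : r0 < ‖y‖ := hne y (by linarith)
    have hy0 : 0 < ‖y‖ := lt_of_le_of_lt hr0 hyr
    have h1 : Tendsto (fun s : ℝ => F (s • y)) (𝓝[>] 1) (𝓝 (F y)) := by
      have h2 : ContinuousAt (fun s : ℝ => s • y) (1 : ℝ) := by fun_prop
      have h3 : ContinuousAt (fun s : ℝ => F (s • y)) (1 : ℝ) :=
        ContinuousAt.comp (f := fun s : ℝ => s • y) (by rw [one_smul]; exact hF y hyr) h2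
      have h4 := h3.tendsto
      rw [one_smul] at h4
      exact h4.mono_left nhdsWithin_le_nhds
    refine ge_of_tendsto h1 ?_
    filter_upwards [self_mem_nhdsWithin] with s hs
    have hs' : 1 < s := hs
    refine (hpos (s • y) ?_).le
    rw [h, norm_smul, Real.norm_of_nonneg (by linarith)]
    nlinarith

end Pool.Agent.H921.QX
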