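import Pool.Agent.H921.QX.E
import Pool.Agent.H921.QX.Cong
import Pool.Agent.H921.QX.Far

/-!
# Quasi-spherical data on an exterior region
-/

set_option autoImplicit false

namespace Pool.Agent.H921.QX

open Filter Topology MeasureTheory Pool.Agent.N795.PI Pool.Agent.N774.PIA Pool.Agent.H921.QP

/-- The data on the exterior region `|x| > r0`: the metric `g = N² ds² + ρ(s)² dσ²`, a symmetric
tensor `h`; the end `|x| → ∞` is asymptotically flat of ADM energy `m`. -/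
structure IsExt (N : E3 → ℝ) (ρ : ℝ → ℝ) (h : Fin 3 → Fin 3 → E3 → ℝ) (r0 m : ℝ) : Prop where
  /-- the metric is positive -/
  posN : ∀ x : E3, r0 < ‖x‖ → 0 < N x
  posR : ∀ t : ℝ, r0 < t → 0 < ρ t
  /-- the metric is smooth -/
  smoothN : ∀ x : E3, r0 < ‖x‖ → ContDiffAt ℝ ((⊤ : ℕ∞) : WithTop ℕ∞) N x
  smoothR : ∀ t : ℝ, r0 < t → ContDiffAt ℝ ((⊤ : ℕ∞) : WithTop ℕ∞) ρ t
  /-- `h` is symmetric -/
  symm : ∀ (i j : Fin 3) (x : E3), r0 < ‖x‖ → h i j x = h j i x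
  /-- `h` is smooth -/
  smoothH : ∀ (i j : Fin 3) (x : E3), r0 < ‖x‖ → ContDiffAt ℝ ((⊤ : ℕ∞) : WithTop ℕ∞) (h i j) x
  /-- asymptotic flatness of `g` -/
  endR : ∃ T : ℝ, ∀ t : ℝ, T ≤ t → ρ t = t
  endN : ∃ C R : ℝ, ∀ x : E3, R ≤ ‖x‖ → |N x - 1| ≤ C / ‖x‖ ∧ ∀ i, |pd i N x| ≤ C / ‖x‖ ^ 2
  /-- asymptotic flatness of `h` -/
  endH : ∃ C R : ℝ, ∀ x : E3, R ≤ ‖x‖ → ∀ i j, |h i j x| ≤ C / ‖x‖ ^ 2
  /-- the ADM energy -/
  mass : Tendsto (flux N ρ) atTop (𝓝 m)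

/-- The part in the exterior region `|x| > r0` of a surface `Σ = {F = 0}`, the boundary of `{F < 0}`,
with `H ≤ |tr h|` there. An apparent horizon has `H = tr h`. -/
structure IsTrappedExt (N : E3 → ℝ) (ρ : ℝ → ℝ) (h : Fin 3 → Fin 3 → E3 → ℝ) (r0 : ℝ) (F : E3 → ℝ) :
    Prop where
  /-- smooth -/
  smooth : ∀ x : E3, r0 < ‖x‖ → ContDiffAt ℝ 2 F x
  /-- not empty -/
  nonempty : ∃ x : E3, r0 < ‖x‖ ∧ F x = 0
  /-- the designated end is outside -/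
  outer : ∃ R : ℝ, ∀ x : E3, R ≤ ‖x‖ → 0 < F x
  /-- regular level set -/
  regular : ∀ x : E3, r0 < ‖x‖ → F x = 0 → fderiv ℝ F x ≠ 0
  /-- `H ≤ |tr h|` -/
  le : ∀ x : E3, r0 < ‖x‖ → F x = 0 → meanC N ρ F x ≤ |trSig N ρ h F x|

/-- The sphere of radius `t > r0` encloses the surface. -/
def EnclExt (F : E3 → ℝ) (r0 t : ℝ) : Prop := r0 < t ∧ ∀ x : E3, r0 < ‖x‖ → F x < 0 → ‖x‖ < t

variable {N : E3 → ℝ} {ρ : ℝ → ℝ} {h : Fin 3 → Fin 3 → E3 → ℝ} {r0 m : ℝ} {F : E3 → ℝ}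

lemma comb_pos {b n : ℝ} (h0 : 0 ≤ b) (h1 : b ≤ 1) (hn : 0 < n) : 0 < (1 - b) * n + b := by
  rcases h0.eq_or_lt with h | h
  · rw [← h]
    linarith
  · have h2 : 0 ≤ (1 - b) * n := mul_nonneg (by linarith) hn.le
    linarith

theorem IsExt.extend (hr0 : 0 ≤ r0) (D : IsExt N ρ h r0 m) {r t0 : ℝ} (hr : r0 < r) (hrt : r < t0)
    (dec : ∀ x : E3, t0 < ‖x‖ → |QP.Jnu N ρ h x| ≤ muQ N ρ h x)
    (unif : ∀ x y : E3, t0 ≤ ‖x‖ → ‖x‖ = ‖y‖ → N x * trSph ρ h x = N y * trSph ρ h y) :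
    ∃ (N' : E3 → ℝ) (ρ' : ℝ → ℝ) (h' : Fin 3 → Fin 3 → E3 → ℝ), IsQExt N' ρ' h' t0 m ∧
      (∀ y, r < ‖y‖ → N' y = N y) ∧ (∀ t, r < t → ρ' t = ρ t) ∧
      ∀ i j y, r < ‖y‖ → h' i j y = h i j y := by
  have hr1 : 0 < (r0 + r) / 2 := by linarith
  have hr2 : (r0 + r) / 2 < r := by linarith
  have hr3 : r0 < (r0 + r) / 2 := by linarith
  obtain ⟨b, hb1, hb2⟩ : ∃ b : ContDiffBump (0 : E3), b.rIn = (r0 + r) / 2 ∧ b.rOut = r :=
    ⟨⟨(r0 + r) / 2, r, hr1, hr2⟩, rfl, rfl⟩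
  obtain ⟨c, hc1, hc2⟩ : ∃ c : ContDiffBump (0 : ℝ), c.rIn = (r0 + r) / 2 ∧ c.rOut = r :=
    ⟨⟨(r0 + r) / 2, r, hr1, hr2⟩, rfl, rfl⟩
  have bz : ∀ x : E3, r ≤ ‖x‖ → b x = 0 := fun x hx =>
    b.zero_of_le_dist (by rw [hb2, dist_zero_right]; exact hx)
  have cz : ∀ t : ℝ, r ≤ t → c t = 0 := fun t ht =>
    c.zero_of_le_dist (by
      rw [hc2, dist_zero_right, Real.norm_eq_abs]
      exact ht.trans (le_abs_self t))
  have bo : ∀ x : E3, ‖x‖ ≤ r0 → (b : E3 → ℝ) =ᶠ[𝓝 x] 1 := fun x hx =>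
    b.eventuallyEq_one_of_mem_ball (by
      rw [hb1, mem_ball_zero_iff]
      linarith)
  have cOne : ∀ t : ℝ, 0 < t → t ≤ r0 → (c : ℝ → ℝ) =ᶠ[𝓝 t] 1 := fun t ht0 ht =>
    c.eventuallyEq_one_of_mem_ball (by
      rw [hc1, mem_ball_zero_iff, Real.norm_eq_abs, abs_of_pos ht0]
      linarith)
  have hN : ∀ y : E3, r ≤ ‖y‖ → (1 - b y) * N y + b y = N y := fun y hy => by
    rw [bz y hy]
    ring
  have hR : ∀ t : ℝ, r ≤ t → (1 - c t) * ρ t + c t = ρ t := fun t ht => by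
    rw [cz t ht]
    ring
  have hH : ∀ (i j : Fin 3) (y : E3), r ≤ ‖y‖ → (1 - b y) * h i j y = h i j y := fun i j y hy => by
    rw [bz y hy]
    ring
  have hN' : ∀ y : E3, r < ‖y‖ → (fun y : E3 => (1 - b y) * N y + b y) y = N y :=
    fun y hy => hN y hy.le
  have hR' : ∀ t : ℝ, r < t → (fun t : ℝ => (1 - c t) * ρ t + c t) t = ρ t := fun t ht => hR t ht.le
  have hH' : ∀ (i j : Fin 3) (y : E3), r < ‖y‖ →
      (fun (i j : Fin 3) (y : E3) => (1 - b y) * h i j y) i j y = h i j y :=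
    fun i j y hy => hH i j y hy.le
  refine ⟨fun y => (1 - b y) * N y + b y, fun t => (1 - c t) * ρ t + c t,
    fun i j y => (1 - b y) * h i j y, ?_, hN', hR', hH'⟩
  constructor
  · intro x hx
    rcases le_or_gt ‖x‖ r0 with h1 | h1
    · have h2 : b x = 1 := (bo x h1).eq_of_nhds
      simp only [h2]
      norm_num
    · exact comb_pos b.nonneg b.le_one (D.posN x h1)
  · intro t ht
    rcases le_or_gt t r0 with h1 | h1
    · have h2 : c t = 1 := (cOne t ht h1).eq_of_nhds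
      simp only [h2]
      norm_num
    · exact comb_pos c.nonneg c.le_one (D.posR t h1)
  · intro x hx
    rcases le_or_gt ‖x‖ r0 with h1 | h1
    · have h2 : (fun y : E3 => (1 - b y) * N y + b y) =ᶠ[𝓝 x] fun _ => (1 : ℝ) := by
        filter_upwards [bo x h1] with y hy
        rw [hy]
        simp
      exact contDiffAt_const.congr_of_eventuallyEq h2
    · exact ((contDiffAt_const.sub b.contDiff.contDiffAt).mul (D.smoothN x h1)).add
        b.contDiff.contDiffAt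
  · intro t ht
    rcases le_or_gt t r0 with h1 | h1
    · have h2 : (fun y : ℝ => (1 - c y) * ρ y + c y) =ᶠ[𝓝 t] fun _ => (1 : ℝ) := by
        filter_upwards [cOne t ht h1] with y hy
        rw [hy]
        simp
      exact contDiffAt_const.congr_of_eventuallyEq h2
    · exact ((contDiffAt_const.sub c.contDiff.contDiffAt).mul (D.smoothR t h1)).add
        c.contDiff.contDiffAt
  · intro i j x
    rcases le_or_gt ‖x‖ r0 with h1 | h1
    · have h2 : b x = 1 := (bo x h1).eq_of_nhds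
      simp only [h2]
      norm_num
    · change (1 - b x) * h i j x = (1 - b x) * h j i x
      rw [D.symm i j x h1]
  · intro i j x hx
    rcases le_or_gt ‖x‖ r0 with h1 | h1
    · have h2 : (fun y : E3 => (1 - b y) * h i j y) =ᶠ[𝓝 x] fun _ => (0 : ℝ) := by
        filter_upwards [bo x h1] with y hy
        rw [hy]
        simp
      exact contDiffAt_const.congr_of_eventuallyEq h2
    · exact (contDiffAt_const.sub b.contDiff.contDiffAt).mul (D.smoothH i j x h1)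
  · intro x hx hxt
    have h1 : r < ‖x‖ := hrt.trans hxt
    rw [Jnu_on hN' hR' hH' x h1, muQ_on hN' hR' hH' x h1]
    exact dec x hxt
  · intro x y hx hxt hxy
    have h1 : r < ‖x‖ := hrt.trans_le hxt
    have h2 : r < ‖y‖ := by rw [← hxy]; exact h1
    rw [trSph_on hR' hH' x h1, trSph_on hR' hH' y h2]
    simp only [hN x h1.le, hN y h2.le]
    exact unif x y hxt hxy
  · obtain ⟨T, hT⟩ := D.endR
    refine ⟨max T r, fun t ht => ?_⟩
    simp only [hR t ((le_max_right _ _).trans ht)]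
    exact hT t ((le_max_left _ _).trans ht)
  · obtain ⟨C, R, hC⟩ := D.endN
    refine ⟨C, max R (r + 1), fun x hx => ?_⟩
    have h1 : r < ‖x‖ := by
      have := (le_max_right _ _).trans hx
      linarith
    have h2 := hC x ((le_max_left _ _).trans hx)
    refine ⟨?_, fun i => ?_⟩
    · simp only [hN x h1.le]
      exact h2.1
    · rw [pd_on hN' i x h1]
      exact h2.2 i
  · obtain ⟨C, R, hC⟩ := D.endH
    refine ⟨C, max R r, fun x hx i j => ?_⟩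
    simp only [hH i j x ((le_max_right _ _).trans hx)]
    exact hC x ((le_max_left _ _).trans hx) i j
  · refine D.mass.congr' ?_
    filter_upwards [eventually_gt_atTop (max 0 r)] with t ht
    exact (flux_on hN' hR' (lt_of_le_of_lt (le_max_left _ _) ht)
      (lt_of_le_of_lt (le_max_right _ _) ht)).symm

theorem IsExt.horizon (hr0 : 0 ≤ r0) (D : IsExt N ρ h r0 m) (hF : IsTrappedExt N ρ h r0 F)
    (dec : ∀ x : E3, r0 < ‖x‖ → 0 < F x → |QP.Jnu N ρ h x| ≤ muQ N ρ h x)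
    (unif : ∀ t : ℝ, EnclExt F r0 t → ∀ x y : E3, ‖x‖ = t → ‖y‖ = t →
      N x * trSph ρ h x = N y * trSph ρ h y) :
    ∃ t1 : ℝ, EnclExt F r0 t1 ∧ (∀ x : E3, r0 < ‖x‖ → F x = 0 → ‖x‖ ≤ t1) ∧
      (∀ x : E3, ‖x‖ = t1 → |trSph ρ h x| = Hs N ρ x) ∧
      (∀ x : E3, t1 < ‖x‖ → |trSph ρ h x| < Hs N ρ x) ∧ ρ t1 / 2 ≤ m := by
  obtain ⟨x, hx, hx0, hfar, hfar'⟩ := far_ext hr0 F (fun x hx => (hF.smooth x hx).continuousAt)
    hF.nonempty hF.outer
  have hxp : 0 < ‖x‖ := lt_of_le_of_lt hr0 hx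
  have hxne : x ≠ 0 := norm_pos_iff.1 hxp
  have henc : ∀ t, ‖x‖ ≤ t → EnclExt F r0 t := fun t ht =>
    ⟨hx.trans_le ht, fun y _ hy => by
      by_contra hcon
      exact absurd (hfar y (ht.trans (not_lt.1 hcon))) (not_le.2 hy)⟩
  obtain ⟨N', ρ', h', D', hN', hR', hH'⟩ := D.extend hr0 (r := (r0 + ‖x‖) / 2) (t0 := ‖x‖)
    (by linarith) (by linarith) (fun y hy => dec y (hx.trans hy) (hfar' y hy))
    (fun y z hy hyz => unif ‖y‖ (henc _ hy) y z rfl hyz.symm)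
  have hrx : (r0 + ‖x‖) / 2 < ‖x‖ := by linarith
  have hxt := D'.far_trapped hxne le_rfl (hF.smooth x hx) hx0 (hF.regular x hx hx0) hfar (by
    rw [meanC_on hN' hR' x hrx, trSig_on hN' hR' hH' x hrx]
    exact hF.le x hx hx0)
  obtain ⟨t1, hle, he, haft⟩ := D'.last_of hxp hxt
  have ht1 : 0 < t1 := hxp.trans_le hle
  have hrt1 : (r0 + ‖x‖) / 2 < t1 := hrx.trans_le hle
  have hm := D'.main_of (fun _ hT _ ht hTt => flux_eq (fun _ hx => D'.dN hx) hT ht hTt) ht1 hle he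
    haft
  rw [hR' t1 hrt1] at hm
  refine ⟨t1, henc t1 hle, fun y _ hy => ?_, fun y hy => ?_, fun y hy => ?_, hm⟩
  · by_contra hcon
    have h1 := hfar' y (lt_of_le_of_lt hle (not_le.1 hcon))
    rw [hy] at h1
    exact lt_irrefl _ h1
  · have hy1 : (r0 + ‖x‖) / 2 < ‖y‖ := by rw [hy]; exact hrt1
    have hy0 : y ≠ 0 := by
      rw [← norm_pos_iff, hy]
      exact ht1
    rw [← trSph_on hR' hH' y hy1, ← Hs_on hN' hR' y hy1]
    exact D'.tr_eq_of hy0 (by rw [hy]; exact hle) (by rw [hy]; exact he)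
  · have hy1 : (r0 + ‖x‖) / 2 < ‖y‖ := hrt1.trans hy
    have hy0 : y ≠ 0 := by
      rw [← norm_pos_iff]
      exact ht1.trans hy
    rw [← trSph_on hR' hH' y hy1, ← Hs_on hN' hR' y hy1]
    exact (D'.tr_lt hy0 (hle.trans hy.le)).2 (haft _ hy)

end Pool.Agent.H921.QX
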