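import Pool.Agent.H921.QX.Ext

/-!
# Quasi-spherical data on an exterior region: the last sphere that is not untrapped
-/

set_option autoImplicit false

namespace Pool.Agent.H921.QX

open Filter Topology MeasureTheory Pool.Agent.N795.PI Pool.Agent.N774.PIA Pool.Agent.H921.QP

variable {N : E3 → ℝ} {ρ : ℝ → ℝ} {h : Fin 3 → Fin 3 → E3 → ℝ} {r0 m : ℝ}

theorem IsExt.sphere (hr0 : 0 ≤ r0) (D : IsExt N ρ h r0 m) {x : E3} (hx : r0 < ‖x‖)
    (dec : ∀ y : E3, ‖x‖ < ‖y‖ → |QP.Jnu N ρ h y| ≤ muQ N ρ h y)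
    (unif : ∀ y z : E3, ‖x‖ ≤ ‖y‖ → ‖y‖ = ‖z‖ → N y * trSph ρ h y = N z * trSph ρ h z)
    (hxt : Hs N ρ x ≤ |trSph ρ h x|) :
    ∃ t1 : ℝ, ‖x‖ ≤ t1 ∧ (∀ y : E3, ‖y‖ = t1 → |trSph ρ h y| = Hs N ρ y) ∧
      (∀ y : E3, t1 < ‖y‖ → |trSph ρ h y| < Hs N ρ y) ∧ ρ t1 / 2 ≤ m := by
  have hxp : 0 < ‖x‖ := lt_of_le_of_lt hr0 hx
  have hxne : x ≠ 0 := norm_pos_iff.1 hxp
  obtain ⟨N', ρ', h', D', hN', hR', hH'⟩ := D.extend hr0 (r := (r0 + ‖x‖) / 2) (t0 := ‖x‖)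
    (by linarith) (by linarith) dec unif
  have hrx : (r0 + ‖x‖) / 2 < ‖x‖ := by linarith
  have hxt' : deriv ρ' ‖x‖ ≤ ρ' ‖x‖ * |bet N' ρ' h' ‖x‖| := by
    by_contra hcon
    have h1 := (D'.tr_lt hxne le_rfl).2 (not_le.1 hcon)
    rw [trSph_on hR' hH' x hrx, Hs_on hN' hR' x hrx] at h1
    exact absurd h1 (not_lt.2 hxt)
  obtain ⟨t1, hle, he, haft⟩ := D'.last_of hxp hxt'
  have ht1 : 0 < t1 := hxp.trans_le hle
  have hrt1 : (r0 + ‖x‖) / 2 < t1 := hrx.trans_le hle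
  have hm := D'.main_of (fun _ hT _ ht hTt => flux_eq (fun _ hx => D'.dN hx) hT ht hTt) ht1 hle he
    haft
  rw [hR' t1 hrt1] at hm
  refine ⟨t1, hle, fun y hy => ?_, fun y hy => ?_, hm⟩
  · have hy1 : (r0 + ‖x‖) / 2 < ‖y‖ := by rw [hy]; exact hrt1
    have hy0 : y ≠ 0 := by
      rw [← norm_pos_iff, hy]
      exact ht1
    rw [← trSph_on hR' hH' y hy1, ← Hs_on hN' hR' y hy1]
    exact D'.tr_eq_of hy0 (by rw [hy]; exact hle) (by rw [hy]; exact he)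
  · have hy1 : (r0 + ‖x‖) / 2 < ‖y‖ := hrt1.trans hy
    have hy0 : y ≠ 0 := by
      rw [← norm_pos_iff]
      exact ht1.trans hy
    rw [← trSph_on hR' hH' y hy1, ← Hs_on hN' hR' y hy1]
    exact (D'.tr_lt hy0 (hle.trans hy.le)).2 (haft _ hy)

/-- if the spheres become large at the inner boundary, one of them is not untrapped -/
theorem IsExt.exists_sphere (hr0 : 0 ≤ r0) (D : IsExt N ρ h r0 m)
    (hin : Tendsto ρ (𝓝[>] r0) atTop) : ∃ x : E3, r0 < ‖x‖ ∧ Hs N ρ x ≤ |trSph ρ h x| := by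
  by_contra hcon
  push Not at hcon
  have hdiff : ∀ t, r0 < t → DifferentiableAt ℝ ρ t := fun t ht =>
    (D.smoothR t ht).differentiableAt (by
      intro h0
      exact absurd h0 (by simp))
  have hpos : ∀ t, r0 < t → 0 < deriv ρ t := by
    intro t ht
    have ht0 : 0 < t := lt_of_le_of_lt hr0 ht
    have hn := norm_te0 ht0
    have h1 := hcon (t • e0) (by rw [hn]; exact ht)
    have h2 : 0 < Hs N ρ (t • e0) := lt_of_le_of_lt (abs_nonneg _) h1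
    have hN := D.posN (t • e0) (by rw [hn]; exact ht)
    have hR := D.posR t ht
    rw [Hs, hn] at h2
    have h3 : 0 < 2 * deriv ρ t := by
      have h4 := mul_pos h2 (mul_pos hR hN)
      rwa [div_mul_cancel₀ _ (mul_pos hR hN).ne'] at h4
    linarith
  have hmono : MonotoneOn ρ (Set.Ioi r0) := by
    refine monotoneOn_of_deriv_nonneg (convex_Ioi r0)
      (fun t ht => (hdiff t ht).continuousAt.continuousWithinAt) ?_ ?_
    · intro t ht
      rw [interior_Ioi] at ht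
      exact (hdiff t ht).differentiableWithinAt
    · intro t ht
      rw [interior_Ioi] at ht
      exact (hpos t ht).le
  have h1 : ∀ᶠ t in 𝓝[>] r0, ρ (r0 + 1) + 1 ≤ ρ t := hin.eventually_ge_atTop _
  have h2 : ∀ᶠ t in 𝓝[>] r0, t ∈ Set.Ioo r0 (r0 + 1) := Ioo_mem_nhdsGT (by linarith)
  obtain ⟨t, h3, h4⟩ := (h1.and h2).exists
  have h5 := hmono (Set.mem_Ioi.2 h4.1) (Set.mem_Ioi.2 (by linarith : r0 < r0 + 1)) h4.2.le
  linarith

end Pool.Agent.H921.QX
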